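import Pool.Agent.Helper25.PCap.PkS10

/-!
Planar p-capacity (MP_576c25_an): packet S11, behaviour of the stream function at the slit.
-/

set_option autoImplicit false

open MeasureTheory Set Filter Topology
open scoped ContDiff Real

noncomputable section

namespace Pool.Agent.Helper88.PCap

open Pool.Agent.Helper25.PCap

/-- the local reflected pair at the slit -/
theorem s11_local {κ : ℝ} (S : SData κ)
    (hQ : Sys κ S.C0 S.u (omS S) {z | 0 < z.2 ∧ z.2 < π}) (t₀ : ℝ) (ht : 0 < t₀) :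
    ∃ (N : Set (ℝ × ℝ)) (ut omt : ℝ × ℝ → ℝ), IsOpen N ∧ (t₀, 0) ∈ N ∧
    Sys κ S.C0 ut omt N ∧ (∀ z ∈ N, 0 ≤ z.2 → ut z = S.u z ∧ omt z = omS S z) ∧
    D2 ut (t₀, 0) < 0 := by
  obtain ⟨N, ut, hN, h0, hut, hLL, huu, hneg⟩ := S.refl t₀ ht
  obtain ⟨r₀, hr₀, hball⟩ := Metric.isOpen_iff.1 hN (t₀, 0) h0
  have hpi := Real.pi_pos
  obtain ⟨r, hr, hrr, hrpi⟩ : ∃ r : ℝ, 0 < r ∧ r ≤ r₀ ∧ r < π / 2 :=
    ⟨min r₀ 1, by positivity, min_le_left _ _, by
      have := min_le_right r₀ 1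
      have := Real.pi_gt_three
      linarith⟩
  set M : Set (ℝ × ℝ) := Metric.ball (t₀, 0) r with hM
  have hMN : M ⊆ N := (Metric.ball_subset_ball hrr).trans hball
  have hMo : IsOpen M := Metric.isOpen_ball
  have hmem : ∀ a b : ℝ, (a, b) ∈ M ↔ |a - t₀| < r ∧ |b| < r := by
    intro a b
    rw [hM, Metric.mem_ball, Prod.dist_eq, max_lt_iff, Real.dist_eq, Real.dist_eq, sub_zero]
  have hutM : ContDiffOn ℝ ∞ ut M := hut.mono hMN
  -- equality of derivatives on the open part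
  have hPo : IsOpen (M ∩ {z : ℝ × ℝ | 0 < z.2}) :=
    hMo.inter (isOpen_lt continuous_const continuous_snd)
  have hfd : ∀ z ∈ M, 0 < z.2 → fderiv ℝ ut z = fderiv ℝ S.u z := by
    intro z hz hz2
    have : ut =ᶠ[𝓝 z] S.u := by
      filter_upwards [hPo.mem_nhds ⟨hz, hz2⟩] with y hy
      exact huu y (hMN hy.1) (le_of_lt hy.2)
    exact this.fderiv_eq
  have hfd1 : ∀ z ∈ M, 0 < z.2 → D1 ut z = D1 S.u z := by
    intro z hz hz2
    rw [D1, hfd z hz hz2, D1]
  have hfd2 : ∀ z ∈ M, 0 < z.2 → D2 ut z = D2 S.u z := by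
    intro z hz hz2
    rw [D2, hfd z hz hz2, D2]
  set g : ℝ × ℝ → ℝ := fun z => 1 - BB κ S.C0 * Real.exp (-(1 - κ) * z.1) * D1 ut z with hg
  have hD1ut : ContDiffOn ℝ ∞ (D1 ut) M := s10_D1 hMo hutM
  have hD2ut : ContDiffOn ℝ ∞ (D2 ut) M := s10_D2 hMo hutM
  have hgs : ContDiffOn ℝ ∞ g M := by
    have h2 : ContDiff ℝ ∞ (fun z : ℝ × ℝ => BB κ S.C0 * Real.exp (-(1 - κ) * z.1)) := by fun_prop
    exact contDiffOn_const.sub (h2.contDiffOn.mul hD1ut)
  set b : ℝ := r / 2 with hb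
  have hb0 : 0 < b := by positivity
  have hbr : b < r := by rw [hb]; linarith
  have hseg : ∀ z ∈ M, ∀ s ∈ uIcc z.2 b, (z.1, s) ∈ M := by
    intro z hz s hs
    have hz' := (hmem z.1 z.2).1 hz
    rw [hmem]
    refine ⟨hz'.1, ?_⟩
    have h1 : min z.2 b ≤ s := hs.1
    have h2 : s ≤ max z.2 b := hs.2
    have h3 := abs_lt.1 hz'.2
    rw [abs_lt]
    constructor
    · have : -r < min z.2 b := lt_min h3.1 (by linarith)
      linarith
    · have : max z.2 b < r := max_lt h3.2 hbr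
      linarith
  obtain ⟨hp2, hp1⟩ := s10_prim hMo hgs hseg
  have hD1g : ∀ z ∈ M, D1 g z =
      κ * BB κ S.C0 * Real.exp (-(1 - κ) * z.1) * D2 (D2 ut) z := by
    intro z hz
    obtain ⟨t, θ⟩ := z
    have e1 := s10_h1 (s10_diff hMo hgs hz)
    have e2 : HasDerivAt (fun s : ℝ => D1 ut (s, θ)) (D1 (D1 ut) (t, θ)) t :=
      s10_h1 (s10_diff hMo hD1ut hz)
    have e3 : HasDerivAt (fun s : ℝ => BB κ S.C0 * Real.exp (-(1 - κ) * s))
        (BB κ S.C0 * (Real.exp (-(1 - κ) * t) * (-(1 - κ)))) t := by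
      have h6 : HasDerivAt (fun s : ℝ => -(1 - κ) * s) (-(1 - κ)) t := by
        simpa using (hasDerivAt_id t).const_mul (-(1 - κ))
      exact (h6.exp).const_mul _
    have e4 := (e3.mul e2).const_sub 1
    have e5 : D1 g (t, θ) = -(BB κ S.C0 * (Real.exp (-(1 - κ) * t) * (-(1 - κ))) *
        D1 ut (t, θ) + BB κ S.C0 * Real.exp (-(1 - κ) * t) * D1 (D1 ut) (t, θ)) :=
      e1.unique e4
    have e6 := hLL (t, θ) (hMN hz)
    rw [LL] at e6
    rw [e5]
    simp only
    have e7 : D1 (D1 ut) (t, θ) = (1 - κ) * D1 ut (t, θ) - κ * D2 (D2 ut) (t, θ) := by linarith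
    rw [e7]
    ring
  -- the trace of `omS` at height `b`
  have hbQ : ∀ t : ℝ, ((t, b) : ℝ × ℝ) ∈ {z : ℝ × ℝ | 0 < z.2 ∧ z.2 < π} := by
    intro t
    exact ⟨hb0, by show b < π; linarith⟩
  have hopenQ : IsOpen {z : ℝ × ℝ | 0 < z.2 ∧ z.2 < π} :=
    (isOpen_lt continuous_const continuous_snd).inter (isOpen_lt continuous_snd continuous_const)
  obtain ⟨hQu, hQom, hQ2, hQ1⟩ := hQ
  have htr : ∀ t : ℝ, HasDerivAt (fun s => omS S (s, b)) (D1 (omS S) (t, b)) t := fun t =>
    s10_h1 (s10_diff hopenQ hQom (hbQ t))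
  set omt : ℝ × ℝ → ℝ := fun z => (∫ s in z.2..b, g (z.1, s)) + omS S (z.1, b) with homt
  have hex : ContDiff ℝ ∞ (fun z : ℝ × ℝ => κ * BB κ S.C0 * Real.exp (-(1 - κ) * z.1)) := by
    fun_prop
  have hP1 : ContDiffOn ℝ ∞ (fun z : ℝ × ℝ => -(κ * BB κ S.C0 * Real.exp (-(1 - κ) * z.1) *
      D2 ut z)) M := (hex.contDiffOn.mul hD2ut).neg
  have hpart := s10_partials (Φ := omt)
    (P1 := fun z : ℝ × ℝ => -(κ * BB κ S.C0 * Real.exp (-(1 - κ) * z.1) * D2 ut z))
    (P2 := fun z => -g z) hMo hP1 hgs.neg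
    (by
      intro z hz
      have h7 := (hp1 z hz).add (htr z.1)
      have hzb : (z.1, b) ∈ M := by
        have hz' := (hmem z.1 z.2).1 hz
        rw [hmem]
        exact ⟨hz'.1, by rw [abs_of_pos hb0]; exact hbr⟩
      have h8 : ∫ s in z.2..b, D1 g (z.1, s) =
          κ * BB κ S.C0 * Real.exp (-(1 - κ) * z.1) * (D2 ut (z.1, b) - D2 ut (z.1, z.2)) := by
        have h9 : ∫ s in z.2..b, D1 g (z.1, s) =
            ∫ s in z.2..b, κ * BB κ S.C0 * Real.exp (-(1 - κ) * z.1) *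
              D2 (D2 ut) (z.1, s) := by
          refine intervalIntegral.integral_congr fun s hs' => ?_
          exact hD1g (z.1, s) (hseg z hz s hs')
        rw [h9, intervalIntegral.integral_const_mul]
        congr 1
        refine intervalIntegral.integral_eq_sub_of_hasDerivAt
          (f := fun s => D2 ut (z.1, s)) (fun s hs' => ?_) ?_
        · exact s10_h2 (s10_diff hMo hD2ut (hseg z hz s hs'))
        · refine ContinuousOn.intervalIntegrable ?_
          exact (s10_D2 hMo hD2ut).continuousOn.comp (by fun_prop) (fun s hs' => hseg z hz s hs')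
      have h9 : D1 (omS S) (z.1, b) = -(κ * BB κ S.C0 * Real.exp (-(1 - κ) * z.1) *
          D2 ut (z.1, b)) := by
        rw [hQ1 (z.1, b) (hbQ z.1), hfd2 (z.1, b) hzb hb0]
      rw [h8, h9] at h7
      refine h7.congr_deriv ?_
      show _ = -(κ * BB κ S.C0 * Real.exp (-(1 - κ) * z.1) * D2 ut (z.1, z.2))
      ring)
    (by
      intro z hz
      exact (hp2 z hz).add_const (omS S (z.1, b)))
  refine ⟨M, ut, omt, hMo, Metric.mem_ball_self hr, ⟨hutM, hpart.1, fun z hz => ?_,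
    fun z hz => ?_⟩, fun z hz hz2 => ⟨huu z (hMN hz) hz2, ?_⟩, hneg⟩
  · rw [hpart.2.2 z hz, hg]
    ring
  · rw [hpart.2.1 z hz]
  · -- equality with `omS` on the upper half
    have hcongr : ∀ s ∈ uIoc z.2 b, g (z.1, s) = s10g S (z.1, s) := by
      intro s hs
      have h1 : min z.2 b < s := hs.1
      have hs0 : 0 < s := lt_of_le_of_lt (le_min hz2 hb0.le) h1
      have hsM : (z.1, s) ∈ M := hseg z hz s (uIoc_subset_uIcc hs)
      rw [hg, s10g]
      simp only
      rw [hfd1 (z.1, s) hsM hs0]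
    have hint1 : IntervalIntegrable (fun s => s10g S (z.1, s)) volume z.2 b := by
      have h1 : IntervalIntegrable (fun s => g (z.1, s)) volume z.2 b := by
        refine ContinuousOn.intervalIntegrable ?_
        exact hgs.continuousOn.comp (by fun_prop) (fun s hs' => hseg z hz s hs')
      exact h1.congr hcongr
    have hint2 : IntervalIntegrable (fun s => s10g S (z.1, s)) volume b (π / 2) := by
      refine ContinuousOn.intervalIntegrable ?_
      have hsub : {z : ℝ × ℝ | 0 < z.2 ∧ z.2 < π} ⊆ SC := fun z hz =>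
        Or.inr (Real.sin_pos_of_pos_of_lt_pi hz.1 hz.2).ne'
      refine (s10_g_smooth S hopenQ hsub).continuousOn.comp (by fun_prop) (fun s hs' => ?_)
      have h1 : min b (π / 2) ≤ s := hs'.1
      have h2 : s ≤ max b (π / 2) := hs'.2
      have h3 : 0 < min b (π / 2) := lt_min hb0 (by positivity)
      have h4 : max b (π / 2) < π := max_lt (by linarith) (by linarith)
      exact ⟨lt_of_lt_of_le h3 h1, lt_of_le_of_lt h2 h4⟩
    have e1 : omS S z = ∫ s in z.2..(π / 2), s10g S (z.1, s) := rfl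
    have e2 : omS S (z.1, b) = ∫ s in b..(π / 2), s10g S (z.1, s) := rfl
    rw [e1, ← intervalIntegral.integral_add_adjacent_intervals hint1 hint2, homt]
    simp only
    rw [e2, intervalIntegral.integral_congr_ae (Eventually.of_forall hcongr)]

theorem pkS11 : GS11 := by
  intro κ _ _ S hQ hN _
  have hloc := s11_local S hQ
  refine ⟨?_, hloc⟩
  intro z hz
  obtain ⟨hz0, hz1, hzne⟩ := hz
  rcases hz0.lt_or_eq with h | h
  · have hopenQ : IsOpen {z : ℝ × ℝ | 0 < z.2 ∧ z.2 < π} :=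
      (isOpen_lt continuous_const continuous_snd).inter (isOpen_lt continuous_snd continuous_const)
    have hzQ : z ∈ {z : ℝ × ℝ | 0 < z.2 ∧ z.2 < π} := ⟨h, by linarith [Real.pi_pos]⟩
    exact (hQ.2.1.contDiffAt (hopenQ.mem_nhds hzQ)).continuousAt.continuousWithinAt
  · rcases lt_trichotomy z.1 0 with h1 | h1 | h1
    · have hopenN : IsOpen {z : ℝ × ℝ | z.1 < 0} := isOpen_lt continuous_fst continuous_const
      exact (hN.2.1.contDiffAt (hopenN.mem_nhds h1)).continuousAt.continuousWithinAt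
    · exact absurd (Prod.ext h1 h.symm) hzne
    · obtain ⟨M, ut, omt, hMo, hM0, hsys, heq, _⟩ := hloc z.1 h1
      have hzM : z ∈ M := by
        have : z = (z.1, 0) := Prod.ext rfl h.symm
        rw [this]
        exact hM0
      have hc : ContinuousAt omt z := (hsys.2.1.contDiffAt (hMo.mem_nhds hzM)).continuousAt
      refine (hc.continuousWithinAt (s := {z : ℝ × ℝ | 0 ≤ z.2 ∧ z.2 ≤ π / 2 ∧ z ≠ (0, 0)})
        ).congr_of_eventuallyEq ?_ ?_
      · filter_upwards [self_mem_nhdsWithin, mem_nhdsWithin_of_mem_nhds (hMo.mem_nhds hzM)]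
          with y hy hyM
        exact (heq y hyM hy.1).2.symm
      · exact (heq z hzM hz0).2.symm

end Pool.Agent.Helper88.PCap
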