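import Pool.Agent.Helper25.PCap.GoalsS
import Pool.Agent.Helper25.PCap.GoalsF
import Pool.Agent.Helper10.PCap.Basic

/-!
Planar p-capacity (MP_576c25_an): packet S8, the slit data exist.
-/

set_option autoImplicit false

open MeasureTheory Set Filter Topology
open scoped ContDiff Real

noncomputable section

namespace Pool.Agent.Helper88.PCap

open Pool.Agent.Helper25.PCap Pool.Agent.Helper10.PCap

theorem D1_one_sub (f : ℝ × ℝ → ℝ) : D1 (fun z => 1 - f z) = fun z => -D1 f z := by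
  funext z
  unfold D1
  rw [fderiv_const_sub]
  rfl

theorem D2_one_sub (f : ℝ × ℝ → ℝ) : D2 (fun z => 1 - f z) = fun z => -D2 f z := by
  funext z
  unfold D2
  rw [fderiv_const_sub]
  rfl

theorem D1_neg (f : ℝ × ℝ → ℝ) : D1 (fun z => -f z) = fun z => -D1 f z := by
  funext z
  unfold D1
  rw [fderiv_fun_neg]
  rfl

theorem D2_neg (f : ℝ × ℝ → ℝ) : D2 (fun z => -f z) = fun z => -D2 f z := by
  funext z
  unfold D2
  rw [fderiv_fun_neg]
  rfl

theorem LL_one_sub (κ : ℝ) (f : ℝ × ℝ → ℝ) (z : ℝ × ℝ) :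
    LL κ (fun z => 1 - f z) z = -LL κ f z := by
  unfold LL
  rw [D1_one_sub, D2_one_sub, D1_neg, D2_neg]
  ring

theorem isOpen_SC : IsOpen SC := by
  have h1 : IsOpen {z : ℝ × ℝ | z.1 < 0} := isOpen_lt continuous_fst continuous_const
  have h2 : IsOpen {z : ℝ × ℝ | Real.sin z.2 ≠ 0} :=
    isOpen_ne_fun (Real.continuous_sin.comp continuous_snd) continuous_const
  exact h1.union h2

theorem pkS8 (h4 : GS4) (h5 : GS5) (h6 : GS6) (h7 : GS7) (h0 : GExpo) (hf : GF1) : GS8 := by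
  intro κ hκ hκ1
  obtain ⟨m, hm⟩ := h4 κ hκ hκ1
  obtain ⟨hcont, hslit, hdec, htip⟩ := h5 κ hκ hκ1 m hm
  obtain ⟨hmpos, hmlt, hm1, hm2⟩ := h6 κ hκ hκ1 m hm hcont hslit hdec
  have hrefl := h7 κ hκ hκ1 m hm hcont hslit hmpos
  obtain ⟨hm01, hmsm, hmeq, hmper, hmeven, _, _, _⟩ := hm
  have hucont : Continuous (fun z => 1 - m z) := continuous_const.sub hcont
  have hcI : Continuous (fun τ : ℝ => ∫ θ in (0 : ℝ)..(2 * π), (1 - m (τ, θ))) := by
    apply intervalIntegral.continuous_parametric_intervalIntegral_of_continuous'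
    exact hucont.comp (continuous_fst.prodMk continuous_snd)
  set I : ℝ → ℝ := fun τ => ∫ θ in (0 : ℝ)..(2 * π), (1 - m (τ, θ)) with hI
  have hsub : {z : ℝ × ℝ | z.1 < 0} ⊆ SC := fun z hz => Or.inl hz
  have hDS : DecSol κ (fun z => 1 - m z) 0 := by
    refine ⟨contDiffOn_const.sub (hmsm.mono hsub), ?_, ?_, 1, 1 - κ, by linarith, ?_⟩
    · intro z hz
      rw [LL_one_sub, hmeq z (hsub hz), neg_zero]
    · intro τ θ
      show 1 - m (τ, θ + 2 * π) = 1 - m (τ, θ)
      have : θ + 2 * π = θ + π + π := by ring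
      rw [this, hmper, hmper]
    · intro z _
      obtain ⟨a, b, c⟩ := hm01 z
      rw [abs_of_nonneg (by linarith)]
      linarith
  have hev : ∀ τ τ₁ : ℝ, τ ≤ τ₁ → τ₁ < 0 → I τ = Real.exp ((1 - κ) * (τ - τ₁)) * I τ₁ := by
    intro τ τ₁ h h1
    have := (hf κ hκ hκ1 (fun z => 1 - m z) 0 hDS 0 τ τ₁ h h1).1
    simpa [(h0 κ hκ hκ1).1] using this
  have hev0 : ∀ τ : ℝ, τ < 0 → I τ = Real.exp ((1 - κ) * τ) * I 0 := by
    intro τ h
    have t1 : Tendsto (fun τ₁ : ℝ => Real.exp ((1 - κ) * (τ - τ₁)) * I τ₁) (𝓝[<] 0)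
        (𝓝 (Real.exp ((1 - κ) * (τ - 0)) * I 0)) := by
      apply Tendsto.mono_left _ nhdsWithin_le_nhds
      exact (((Real.continuous_exp.comp (by fun_prop : Continuous fun τ₁ : ℝ =>
        (1 - κ) * (τ - τ₁))).mul hcI).tendsto 0)
    have t2 : Tendsto (fun τ₁ : ℝ => Real.exp ((1 - κ) * (τ - τ₁)) * I τ₁) (𝓝[<] 0)
        (𝓝 (I τ)) := by
      apply tendsto_const_nhds.congr'
      filter_upwards [Ioo_mem_nhdsLT h] with τ₁ h1
      exact hev τ τ₁ h1.1.le h1.2
    have := tendsto_nhds_unique t2 t1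
    simpa using this
  have hIpos : 0 < I 0 := by
    apply intervalIntegral.intervalIntegral_pos_of_pos
    · exact (hucont.comp (by fun_prop : Continuous fun θ : ℝ => ((0 : ℝ), θ))).intervalIntegrable
        _ _
    · intro θ
      have := hmlt (0, θ)
      show 0 < 1 - m (0, θ)
      linarith
    · positivity
  refine ⟨{ C0 := I 0 / (2 * π), u := fun z => 1 - m z, C0pos := by positivity, cont := hucont,
            per := ?_, even := ?_, pos := ?_, lt1 := ?_, slit := ?_, smooth := ?_, eq := ?_,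
            upos := ?_, uneg := ?_, mean := ?_, upper := ?_, dec := ?_, refl := ?_, tip := ?_ }⟩
  · intro τ θ
    show 1 - m (τ, θ + π) = 1 - m (τ, θ)
    rw [hmper]
  · intro τ θ
    show 1 - m (τ, -θ) = 1 - m (τ, θ)
    rw [hmeven]
  · intro z
    have := hmlt z
    show 0 < 1 - m z
    linarith
  · intro z hz
    have := hmpos z hz
    show 1 - m z < 1
    linarith
  · intro z hz
    show 1 - m z = 1
    rw [hslit z hz, sub_zero]
  · exact contDiffOn_const.sub hmsm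
  · intro z hz
    rw [LL_one_sub, hmeq z hz, neg_zero]
  · intro z hz
    rw [D1_one_sub]
    have := hm1 z hz
    show 0 < -D1 m z
    linarith
  · intro τ θ h h'
    rw [D2_one_sub]
    have := hm2 τ θ h h'
    show -D2 m (τ, θ) < 0
    linarith
  · intro τ hτ
    show I τ = 2 * π * (I 0 / (2 * π)) * Real.exp ((1 - κ) * τ)
    have hpi : (2 * π : ℝ) ≠ 0 := by positivity
    rw [mul_div_cancel₀ _ hpi]
    rcases hτ.lt_or_eq with h | h
    · rw [hev0 τ h, mul_comm]
    · rw [h]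
      simp
  · intro z
    have := (hm01 z).2.2
    show 1 - m z ≤ _
    linarith
  · obtain ⟨A, γ, hγ, h⟩ := hdec
    refine ⟨A, γ, hγ, fun z hz => ?_⟩
    have := h z hz
    show 1 - (1 - m z) ≤ _
    linarith
  · intro t₀ ht
    obtain ⟨N, mt, hN, hN0, hmt, hmt2, hmt3, hmt4⟩ := hrefl t₀ ht
    refine ⟨N, fun z => 1 - mt z, hN, hN0, contDiffOn_const.sub hmt, ?_, ?_, ?_⟩
    · intro z hz
      rw [LL_one_sub, hmt2 z hz, neg_zero]
    · intro z hz hz2
      show 1 - mt z = 1 - m z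
      rw [hmt3 z hz hz2]
    · rw [D2_one_sub]
      show -D2 mt (t₀, 0) < 0
      linarith
  · obtain ⟨c, h₀, hc, hh, h⟩ := htip
    refine ⟨c, h₀, hc, hh, fun h' h1 h2 => ?_⟩
    have := h h' h1 h2
    show _ ≤ 1 - (1 - m (-h', 0))
    linarith

end Pool.Agent.Helper88.PCap
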