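import Pool.Agent.Helper25.PCap.GoalsT
import Pool.Agent.Helper10.PCap.Basic

/-!
Planar p-capacity (MP_576c25_an): packet SHF, scaling, rotation and translation of
configurations.
-/

set_option autoImplicit false

open MeasureTheory Set Filter Topology
open scoped ContDiff Real

noncomputable section

namespace Pool.Agent.Helper88.PCap

open Pool.Agent.Helper25.PCap Pool.Agent.Helper10.PCap

theorem D1_shift (f : ℝ × ℝ → ℝ) (v : ℝ × ℝ) :
    D1 (fun z => f (z + v)) = fun z => D1 f (z + v) := by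
  funext z
  unfold D1
  rw [fderiv_comp_add_right (f := f) (x := z) v]

theorem D2_shift (f : ℝ × ℝ → ℝ) (v : ℝ × ℝ) :
    D2 (fun z => f (z + v)) = fun z => D2 f (z + v) := by
  funext z
  unfold D2
  rw [fderiv_comp_add_right (f := f) (x := z) v]

theorem LL_shift (κ : ℝ) (f : ℝ × ℝ → ℝ) (v z : ℝ × ℝ) :
    LL κ (fun z => f (z + v)) z = LL κ f (z + v) := by
  unfold LL
  rw [D1_shift, D2_shift, D1_shift, D2_shift]

/-- the translation mode -/
def Emode (a : ℝ × ℝ) (z : ℝ × ℝ) : ℝ := Real.exp z.1 * (a.1 * Real.cos z.2 + a.2 * Real.sin z.2)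

theorem Emode_smooth (a : ℝ × ℝ) : ContDiff ℝ ∞ (Emode a) := by
  unfold Emode
  have h1 : ContDiff ℝ ∞ (fun z : ℝ × ℝ => Real.exp z.1) := Real.contDiff_exp.comp contDiff_fst
  have h2 : ContDiff ℝ ∞ (fun z : ℝ × ℝ => Real.cos z.2) := Real.contDiff_cos.comp contDiff_snd
  have h3 : ContDiff ℝ ∞ (fun z : ℝ × ℝ => Real.sin z.2) := Real.contDiff_sin.comp contDiff_snd
  exact h1.mul ((contDiff_const.mul h2).add (contDiff_const.mul h3))

theorem Emode_diff (a z : ℝ × ℝ) : DifferentiableAt ℝ (Emode a) z :=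
  ((Emode_smooth a).differentiable (by simp)) z

theorem D1_Emode (a : ℝ × ℝ) : D1 (Emode a) = Emode a := by
  funext z
  obtain ⟨t, x⟩ := z
  have h1 := hasDerivAt1 (Emode_diff a (t, x))
  have h2 : HasDerivAt (fun s => Emode a (s, x)) (Emode a (t, x)) t := by
    exact (Real.hasDerivAt_exp t).mul_const (a.1 * Real.cos x + a.2 * Real.sin x)
  exact h1.unique h2

theorem D2_Emode (a : ℝ × ℝ) : D2 (Emode a) = Emode (a.2, -a.1) := by
  funext z
  obtain ⟨t, x⟩ := z
  have h1 := hasDerivAt2 (Emode_diff a (t, x))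
  have h2 : HasDerivAt (fun s => Emode a (t, s)) (Emode (a.2, -a.1) (t, x)) x := by
    unfold Emode
    have h3 := (((Real.hasDerivAt_cos x).const_mul a.1).add
      ((Real.hasDerivAt_sin x).const_mul a.2)).const_mul (Real.exp t)
    refine h3.congr_deriv ?_
    simp only
    ring
  exact h1.unique h2

theorem Emode_neg (a z : ℝ × ℝ) : Emode (-a.1, -a.2) z = -Emode a z := by
  unfold Emode
  ring

theorem int_Emode (a : ℝ × ℝ) (t : ℝ) : ∫ θ in (0 : ℝ)..(2 * π), Emode a (t, θ) = 0 := by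
  have h : ∀ θ ∈ uIcc 0 (2 * π), HasDerivAt (fun s => Emode (-a.2, a.1) (t, s))
      (Emode a (t, θ)) θ := by
    intro θ _
    have h1 := hasDerivAt2 (Emode_diff (-a.2, a.1) (t, θ))
    rw [D2_Emode] at h1
    simpa using h1
  have hc : Continuous (fun θ => Emode a (t, θ)) :=
    (Emode_smooth a).continuous.comp (by fun_prop)
  rw [intervalIntegral.integral_eq_sub_of_hasDerivAt h (hc.intervalIntegrable _ _)]
  unfold Emode
  simp

theorem abs_Emode_le (a z : ℝ × ℝ) : |Emode a z| ≤ (|a.1| + |a.2|) * Real.exp z.1 := by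
  unfold Emode
  rw [abs_mul, abs_of_pos (Real.exp_pos _), mul_comm]
  refine mul_le_mul_of_nonneg_right ?_ (Real.exp_pos _).le
  refine (abs_add_le _ _).trans ?_
  rw [abs_mul, abs_mul]
  have h1 := Real.abs_cos_le_one z.2
  have h2 := Real.abs_sin_le_one z.2
  have h3 : |a.1| * |Real.cos z.2| ≤ |a.1| * 1 := mul_le_mul_of_nonneg_left h1 (abs_nonneg _)
  have h4 : |a.2| * |Real.sin z.2| ≤ |a.2| * 1 := mul_le_mul_of_nonneg_left h2 (abs_nonneg _)
  linarith

theorem D1_add {f g : ℝ × ℝ → ℝ} {z : ℝ × ℝ} (hf : DifferentiableAt ℝ f z)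
    (hg : DifferentiableAt ℝ g z) : D1 (fun z => f z + g z) z = D1 f z + D1 g z := by
  unfold D1
  rw [fderiv_fun_add hf hg]
  rfl

theorem D2_add {f g : ℝ × ℝ → ℝ} {z : ℝ × ℝ} (hf : DifferentiableAt ℝ f z)
    (hg : DifferentiableAt ℝ g z) : D2 (fun z => f z + g z) z = D2 f z + D2 g z := by
  unfold D2
  rw [fderiv_fun_add hf hg]
  rfl

/-- an upper bound for `T` -/
theorem Config.T_bdd {κ : ℝ} (C : Config κ) : ∃ M : ℝ, ∀ θ, C.T θ ≤ M := by
  have hp : Function.Periodic C.T (2 * π) := C.Tper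
  have hc : IsCompact (range C.T) := hp.compact_of_continuous (by positivity) C.Tcont
  obtain ⟨M, hM⟩ := hc.bddAbove
  exact ⟨M, fun θ => hM ⟨θ, rfl⟩⟩

theorem shift1 {κ : ℝ} (C : Config κ) (h : ℝ) :
    ∃ C' : Config κ, C'.C0 = C.C0 * Real.exp ((1 - κ) * h) ∧
      ∀ θ, C'.H θ = Real.exp h * C.H θ := by
  have hcont : Continuous (fun z : ℝ × ℝ => z + (h, 0)) := continuous_id.add continuous_const
  have hsm : ContDiff ℝ ∞ (fun z : ℝ × ℝ => z + (h, 0)) := contDiff_id.add contDiff_const
  refine ⟨{ C0 := C.C0 * Real.exp ((1 - κ) * h)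
            W := fun z => C.W (z + (h, 0))
            T := fun θ => C.T θ - h
            V := (fun z : ℝ × ℝ => z + (h, 0)) ⁻¹' C.V
            C0pos := mul_pos C.C0pos (Real.exp_pos _)
            Tcont := C.Tcont.sub continuous_const
            Tper := fun θ => by rw [C.Tper]
            Vopen := C.Vopen.preimage hcont
            VT := ?_, smooth := ?_, eq := ?_, per := ?_, dec := ?_, mean := ?_, bdry := ?_,
            upos := ?_ }, rfl, ?_⟩
  · intro z hz
    apply C.VT
    show z.1 + h ≤ C.T (z.2 + 0)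
    rw [add_zero]
    linarith
  · exact C.smooth.comp hsm.contDiffOn (fun z hz => hz)
  · intro z hz
    rw [LL_shift]
    exact C.eq _ hz
  · intro τ θ
    have := C.per (τ + h) θ
    simpa using this
  · obtain ⟨A, γ, hγ, hA⟩ := C.dec
    refine ⟨A * Real.exp (γ * h), γ, hγ, fun z hz => ?_⟩
    have h1 := hA (z + (h, 0)) (by
      show z.1 + h ≤ C.T (z.2 + 0)
      rw [add_zero]
      linarith)
    refine h1.trans (le_of_eq ?_)
    have : γ * (z + (h, 0)).1 = γ * h + γ * z.1 := by
      show γ * (z.1 + h) = _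
      ring
    rw [this, Real.exp_add]
    ring
  · intro τ hτ
    have h1 := C.mean (τ + h) (fun θ => by have := hτ θ; linarith)
    have h2 : (fun θ : ℝ => C.W ((τ, θ) + (h, 0))) = fun θ => C.W (τ + h, θ) := by
      funext θ
      simp
    show ∫ θ in (0 : ℝ)..(2 * π), C.W ((τ, θ) + (h, 0)) = _
    have h3 : (1 - κ) * (τ + h) = (1 - κ) * h + (1 - κ) * τ := by ring
    rw [h2, h1, h3, Real.exp_add]
    ring
  · intro θ
    have h1 := C.bdry θ
    rw [D1_shift]
    simp only [Prod.mk_add_mk, sub_add_cancel, add_zero]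
    exact h1
  · intro z hz
    have h1 := C.upos (z + (h, 0)) (by
      show z.1 + h ≤ C.T (z.2 + 0)
      rw [add_zero]
      linarith)
    rw [D1_shift, D1_shift]
    exact h1
  · intro θ
    unfold Config.H
    simp only [Prod.mk_add_mk, sub_add_cancel, add_zero]
    rw [← mul_assoc, ← Real.exp_add]
    congr 2
    ring

theorem shift2 {κ : ℝ} (C : Config κ) (φ : ℝ) :
    ∃ C' : Config κ, C'.C0 = C.C0 ∧ ∀ θ, C'.H θ = C.H (θ - φ) := by
  have hcont : Continuous (fun z : ℝ × ℝ => z + (0, -φ)) := continuous_id.add continuous_const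
  have hsm : ContDiff ℝ ∞ (fun z : ℝ × ℝ => z + (0, -φ)) := contDiff_id.add contDiff_const
  have hpt : ∀ t θ : ℝ, ((t, θ) : ℝ × ℝ) + (0, -φ) = (t, θ - φ) := by
    intro t θ
    simp [sub_eq_add_neg]
  have hpt' : ∀ z : ℝ × ℝ, z + (0, -φ) = (z.1, z.2 - φ) := fun z => hpt z.1 z.2
  refine ⟨{ C0 := C.C0
            W := fun z => C.W (z + (0, -φ))
            T := fun θ => C.T (θ - φ)
            V := (fun z : ℝ × ℝ => z + (0, -φ)) ⁻¹' C.V
            C0pos := C.C0pos
            Tcont := C.Tcont.comp (continuous_id.sub continuous_const)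
            Tper := fun θ => by
              rw [← C.Tper (θ - φ)]
              congr 1
              ring
            Vopen := C.Vopen.preimage hcont
            VT := ?_, smooth := ?_, eq := ?_, per := ?_, dec := ?_, mean := ?_, bdry := ?_,
            upos := ?_ }, rfl, ?_⟩
  · intro z hz
    apply C.VT
    simp only
    rw [hpt']
    exact hz
  · exact C.smooth.comp hsm.contDiffOn (fun z hz => hz)
  · intro z hz
    rw [LL_shift]
    exact C.eq _ hz
  · intro τ θ
    simp only [hpt]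
    rw [← C.per τ (θ - φ)]
    congr 2
    ring
  · obtain ⟨A, γ, hγ, hA⟩ := C.dec
    refine ⟨A, γ, hγ, fun z hz => ?_⟩
    have h1 := hA (z + (0, -φ)) (by
      rw [hpt']
      exact hz)
    rw [hpt'] at h1 ⊢
    exact h1
  · intro τ hτ
    have h1 := C.mean τ (fun θ => by
      have := hτ (θ + φ)
      simpa using this)
    have h2 : (fun θ : ℝ => C.W ((τ, θ) + (0, -φ))) = fun θ => C.W (τ, θ - φ) := by
      funext θ
      rw [hpt]
    show ∫ θ in (0 : ℝ)..(2 * π), C.W ((τ, θ) + (0, -φ)) = _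
    rw [h2, ← h1]
    have hp : Function.Periodic (fun θ => C.W (τ, θ)) (2 * π) := fun θ => C.per τ θ
    have h3 := hp.intervalIntegral_add_eq (0 - φ) 0
    rw [zero_add] at h3
    rw [← h3, intervalIntegral.integral_comp_sub_right (fun θ => C.W (τ, θ)) φ]
    congr 1
    ring
  · intro θ
    have h1 := C.bdry (θ - φ)
    rw [D1_shift]
    simp only [hpt]
    exact h1
  · intro z hz
    have h1 := C.upos (z + (0, -φ)) (by
      rw [hpt']
      exact hz)
    rw [D1_shift, D1_shift]
    exact h1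
  · intro θ
    unfold Config.H
    simp only [hpt]

theorem shift3 {κ : ℝ} (C : Config κ) (a : ℝ × ℝ) :
    ∃ C' : Config κ, C'.C0 = C.C0 ∧
      ∀ θ, C'.H θ = C.H θ + (a.1 * Real.cos θ + a.2 * Real.sin θ) := by
  have hdW : ∀ z ∈ C.V, DifferentiableAt ℝ C.W z := fun z hz => diffAt C.Vopen C.smooth hz
  have hs1 := smoothD1 C.Vopen C.smooth
  have hs2 := smoothD2 C.Vopen C.smooth
  have hD1 : ∀ z ∈ C.V, D1 (fun z => C.W z + Emode a z) z = D1 C.W z + Emode a z := by
    intro z hz
    rw [D1_add (hdW z hz) (Emode_diff a z), D1_Emode]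
  have hD2 : ∀ z ∈ C.V, D2 (fun z => C.W z + Emode a z) z = D2 C.W z + Emode (a.2, -a.1) z := by
    intro z hz
    rw [D2_add (hdW z hz) (Emode_diff a z), D2_Emode]
  have hD11 : ∀ z ∈ C.V, D1 (D1 (fun z => C.W z + Emode a z)) z =
      D1 (D1 C.W) z + Emode a z := by
    intro z hz
    rw [eqOn_D1 C.Vopen hD1 hz, D1_add (diffAt C.Vopen hs1 hz) (Emode_diff a z), D1_Emode]
  have hD22 : ∀ z ∈ C.V, D2 (D2 (fun z => C.W z + Emode a z)) z =
      D2 (D2 C.W) z - Emode a z := by
    intro z hz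
    rw [eqOn_D2 C.Vopen hD2 hz, D2_add (diffAt C.Vopen hs2 hz) (Emode_diff _ z), D2_Emode]
    simp only
    rw [Emode_neg]
    ring
  refine ⟨{ C0 := C.C0
            W := fun z => C.W z + Emode a z
            T := C.T
            V := C.V
            C0pos := C.C0pos
            Tcont := C.Tcont
            Tper := C.Tper
            Vopen := C.Vopen
            VT := C.VT
            smooth := C.smooth.add (Emode_smooth a).contDiffOn
            eq := ?_, per := ?_, dec := ?_, mean := ?_, bdry := ?_, upos := ?_ }, rfl, ?_⟩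
  · intro z hz
    have h1 := C.eq z hz
    unfold LL at h1 ⊢
    rw [hD11 z hz, hD22 z hz, hD1 z hz]
    linarith
  · intro τ θ
    rw [C.per]
    unfold Emode
    simp
  · obtain ⟨A, γ, hγ, hA⟩ := C.dec
    obtain ⟨M, hM⟩ := Config.T_bdd C
    refine ⟨|A| * Real.exp ((γ - min γ 1) * M) + (|a.1| + |a.2|) * Real.exp ((1 - min γ 1) * M),
      min γ 1, lt_min hγ one_pos, fun z hz => ?_⟩
    have hzM : z.1 ≤ M := hz.trans (hM _)
    have h1 := hA z hz
    have h2 := abs_Emode_le a z
    have h3 : |C.W z + Emode a z + 1| ≤ |C.W z + 1| + |Emode a z| := by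
      have : C.W z + Emode a z + 1 = (C.W z + 1) + Emode a z := by ring
      rw [this]
      exact abs_add_le _ _
    have key : ∀ c : ℝ, min γ 1 ≤ c →
        Real.exp (c * z.1) ≤ Real.exp ((c - min γ 1) * M) * Real.exp (min γ 1 * z.1) := by
      intro c hc
      rw [← Real.exp_add]
      apply Real.exp_le_exp.2
      have : (c - min γ 1) * z.1 ≤ (c - min γ 1) * M :=
        mul_le_mul_of_nonneg_left hzM (by linarith)
      nlinarith
    have k1 := key γ (min_le_left _ _)
    have k2 := key 1 (min_le_right _ _)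
    rw [one_mul] at k2
    have h4 : A * Real.exp (γ * z.1) ≤ |A| * Real.exp (γ * z.1) :=
      mul_le_mul_of_nonneg_right (le_abs_self A) (Real.exp_pos _).le
    have h5 : |A| * Real.exp (γ * z.1) ≤
        |A| * (Real.exp ((γ - min γ 1) * M) * Real.exp (min γ 1 * z.1)) :=
      mul_le_mul_of_nonneg_left k1 (abs_nonneg _)
    have h6 : (|a.1| + |a.2|) * Real.exp z.1 ≤
        (|a.1| + |a.2|) * (Real.exp ((1 - min γ 1) * M) * Real.exp (min γ 1 * z.1)) :=
      mul_le_mul_of_nonneg_left k2 (by positivity)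
    calc |C.W z + Emode a z + 1| ≤ |C.W z + 1| + |Emode a z| := h3
      _ ≤ |A| * (Real.exp ((γ - min γ 1) * M) * Real.exp (min γ 1 * z.1)) +
          (|a.1| + |a.2|) * (Real.exp ((1 - min γ 1) * M) * Real.exp (min γ 1 * z.1)) := by
        linarith
      _ = _ := by ring
  · intro τ hτ
    have h1 := C.mean τ hτ
    have hc : Continuous (fun θ => C.W (τ, θ)) := by
      rw [continuous_iff_continuousAt]
      intro θ
      have hz : (τ, θ) ∈ C.V := C.VT _ (hτ θ)
      exact ((C.smooth.contDiffAt (C.Vopen.mem_nhds hz)).continuousAt).comp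
        (by fun_prop : ContinuousAt (fun s : ℝ => ((τ, s) : ℝ × ℝ)) θ)
    have hc2 : Continuous (fun θ => Emode a (τ, θ)) :=
      (Emode_smooth a).continuous.comp (by fun_prop)
    show ∫ θ in (0 : ℝ)..(2 * π), (C.W (τ, θ) + Emode a (τ, θ)) = _
    rw [intervalIntegral.integral_add (hc.intervalIntegrable _ _) (hc2.intervalIntegrable _ _),
      int_Emode, add_zero, h1]
  · intro θ
    have hz : (C.T θ, θ) ∈ C.V := C.VT _ le_rfl
    rw [hD1 _ hz, C.bdry θ]
  · intro z hz
    have hzV : z ∈ C.V := C.VT _ hz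
    have h1 := C.upos z hz
    rw [hD1 z hzV, hD11 z hzV]
    linarith
  · intro θ
    unfold Config.H
    simp only
    rw [mul_add]
    congr 1
    unfold Emode
    simp only
    rw [← mul_assoc, ← Real.exp_add, neg_add_cancel, Real.exp_zero, one_mul]

theorem pkShift : GShift := fun _ _ _ C => ⟨shift1 C, shift2 C, shift3 C⟩

end Pool.Agent.Helper88.PCap
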